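import Pool.Agent.Lib_helper46.VO.OM

/-!
# One prime number, or two places, decide the `ℓ`-adic Tate conjecture in codimension one for
almost all `ℓ`

Let `V ℓ`, for all prime numbers `ℓ`, be orthogonal representations over `ℚ_[ℓ]` of the Galois group
of a number field `K` with common rational Frobenius polynomials `P 𝔭`, for example the orthogonal
complement of the Néron-Severi group in the cohomology of degree `2`, twisted by `1`, of a smooth
projective variety over `K`, or the whole cohomology of degree `2`.

* If for one prime number `p` the image of `V p` contains a neighbourhood of the identity in the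
  orthogonal group of some nondegenerate form, then for all `ℓ` in a set of density one no open
  subgroup acts trivially on a nonzero subquotient of `V ℓ`.
* For a place `v` let `P v = C * R`, where the roots of `C` are the roots of `P v` that are roots of
  unity, let `r` be the degree of `C`, and `D = R(1) * R(-1)`. If `r` is the same for two places `v`
  and `w`, and the product of the numbers `D` for `v` and `w` is not a square of a rational number,
  then every subquotient of `V ℓ` on which an open subgroup acts trivially has dimension less than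
  `r`, for every `ℓ` for which this product is not a square in `ℚ_[ℓ]` (and not below `v` and `w`),
  and for all `ℓ` in a set of density one.
-/

set_option autoImplicit false

namespace Pool.Agent.Lib_helper19.Superseded.MP97VanLuijk

open NumberField Polynomial Pool.Agent.VL Pool.Agent.VO

theorem result {K : Type} [Field K] [NumberField K] [Algebra K (AlgebraicClosure ℚ)] {m : ℕ}
    (S : Finset (Ideal (𝓞 K))) (P : Ideal (𝓞 K) → ℚ[X])
    (V : ∀ (ℓ : ℕ) [Fact ℓ.Prime], (AlgebraicClosure ℚ ≃ₐ[K] AlgebraicClosure ℚ) →*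
      Matrix (Fin m) (Fin m) ℚ_[ℓ]) (hV : OrthogonalSystem S P V) :
    (2 ≤ m → (∃ (p : ℕ) (_ : Fact p.Prime), OpenInOrthogonalGroup (V p)) →
      ∀ δ : ℝ, 0 ≤ δ → δ < 1 →
        DensityGE {ℓ | ∃ _ : Fact ℓ.Prime, FewTateClasses ℚ_[ℓ] (fun σ => (V ℓ σ).mulVec) 1} δ) ∧
    ∀ v w : Ideal (𝓞 K), v.IsMaximal → w.IsMaximal → v ∉ S → w ∉ S → ∀ C R C' R' : ℚ[X],
      CyclotomicFactorization (P v) C R → CyclotomicFactorization (P w) C' R' → ∀ r : ℕ,
      C.natDegree = r → C'.natDegree = r → ∀ D : ℚ,
      D = (R.eval 1 * R.eval (-1)) * (R'.eval 1 * R'.eval (-1)) → ¬ IsSquare D →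
      (∀ (ℓ : ℕ) [Fact ℓ.Prime], (ℓ : 𝓞 K) ∉ v → (ℓ : 𝓞 K) ∉ w → ¬ IsSquare (D : ℚ_[ℓ]) →
        FewTateClasses ℚ_[ℓ] (fun σ => (V ℓ σ).mulVec) r) ∧
      ∀ δ : ℝ, 0 ≤ δ → δ < 1 →
        DensityGE {ℓ | ∃ _ : Fact ℓ.Prime, FewTateClasses ℚ_[ℓ] (fun σ => (V ℓ σ).mulVec) r} δ :=
  ⟨fun hm h δ h0 h1 => one_prime_decides hV hm h δ h0 h1,
    fun v w hvm hwm hv hw C R C' R' hvf hwf r hC hC' D hD hsq =>
      final S P V hV v w hvm hwm hv hw C R C' R' hvf hwf r hC hC' D hD hsq⟩

end Pool.Agent.Lib_helper19.Superseded.MP97VanLuijk
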